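import Pool.Agent.Helper42.RZ2.Basic
import Pool.Agent.Helper42.RZ2.St.R1
import Pool.Agent.Helper42.RZ2.St.R2

/-! # RZ2-R4a: the regularised lattice sum as a sum of cell differences -/

set_option autoImplicit false

open MeasureTheory Set Metric Filter Topology
open scoped ENNReal

namespace Pool.Agent.Helper39.RZ2

open Pool.Agent.Helper42.RZ Pool.Agent.Helper42.RZ2

theorem abs_dt_le (a b : ℂ) : |dt a b| ≤ ‖a‖ * ‖b‖ := by
  have h1 : dt a b = ((starRingEnd ℂ) a * b).im := by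
    simp [dt, Complex.mul_im]; ring
  rw [h1]
  refine (Complex.abs_im_le_norm _).trans ?_
  rw [norm_mul, Complex.norm_conj]

theorem lv_lower (a b : ℂ) (k : ℤ × ℤ) :
    |dt a b| * (|(k.1 : ℝ)| + |(k.2 : ℝ)|) ≤ ‖lv a b k‖ * (‖a‖ + ‖b‖) := by
  have h1 : dt (lv a b k) b = k.1 * dt a b := by
    simp [dt, lv]; ring
  have h2 : dt a (lv a b k) = k.2 * dt a b := by
    simp [dt, lv]; ring
  have h3 := abs_dt_le (lv a b k) b
  have h4 := abs_dt_le a (lv a b k)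
  rw [h1, abs_mul] at h3
  rw [h2, abs_mul] at h4
  nlinarith

theorem summable_exp_abs {d : ℝ} (hd : 0 < d) :
    Summable fun n : ℤ => Real.exp (-d * |(n : ℝ)|) := by
  have h1 : Summable fun n : ℕ => Real.exp (-d) ^ n :=
    summable_geometric_of_lt_one (Real.exp_pos _).le (by
      rw [Real.exp_lt_one_iff]; linarith)
  have h2 : (fun n : ℕ => Real.exp (-d) ^ n) = fun n : ℕ => Real.exp (-d * (n : ℝ)) := by
    funext n
    rw [← Real.exp_nat_mul]
    congr 1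
    ring
  rw [h2] at h1
  refine Summable.of_nat_of_neg ?_ ?_
  · refine h1.congr fun n => ?_
    simp
  · refine h1.congr fun n => ?_
    simp

theorem summable_exp_abs_prod {d : ℝ} (hd : 0 < d) :
    Summable fun k : ℤ × ℤ => Real.exp (-d * (|(k.1 : ℝ)| + |(k.2 : ℝ)|)) := by
  have h1 := (summable_exp_abs hd).mul_of_nonneg (summable_exp_abs hd)
    (fun n => (Real.exp_pos _).le) (fun n => (Real.exp_pos _).le)
  refine h1.congr fun k => ?_
  rw [← Real.exp_add]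
  congr 1
  ring

theorem finite_le (M : ℝ) : {k : ℤ × ℤ | |(k.1 : ℝ)| + |(k.2 : ℝ)| ≤ M}.Finite := by
  refine (Set.finite_Icc ((-⌈M⌉ : ℤ), (-⌈M⌉ : ℤ)) ((⌈M⌉ : ℤ), (⌈M⌉ : ℤ))).subset ?_
  rintro ⟨i, j⟩ hk
  simp only [mem_setOf_eq] at hk
  have h1 : |(i : ℝ)| ≤ M := by linarith [abs_nonneg (j : ℝ)]
  have h2 : |(j : ℝ)| ≤ M := by linarith [abs_nonneg (i : ℝ)]
  have h3 : M ≤ (⌈M⌉ : ℝ) := Int.le_ceil M
  have h4 := abs_le.1 (h1.trans h3)
  have h5 := abs_le.1 (h2.trans h3)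
  simp only [mem_Icc, Prod.mk_le_mk]
  refine ⟨⟨?_, ?_⟩, ?_, ?_⟩
  · exact_mod_cast h4.1
  · exact_mod_cast h5.1
  · exact_mod_cast h4.2
  · exact_mod_cast h5.2

theorem summable_ph {s w : ℝ} (h0 : 0 < s) (hw : 0 < w) {a b : ℂ} (h : dt a b ≠ 0) (x : ℂ) :
    Summable fun k : ℤ × ℤ => ph s w ‖x + lv a b k‖ := by
  have hdt : 0 < |dt a b| := abs_pos.2 h
  have hab : 0 < ‖a‖ + ‖b‖ := by
    by_contra hc
    have h1 : ‖a‖ = 0 := by linarith [norm_nonneg a, norm_nonneg b]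
    have h2 := abs_dt_le a b
    rw [h1, zero_mul] at h2
    linarith
  set c := |dt a b| / (‖a‖ + ‖b‖) with hc
  have hcpos : 0 < c := div_pos hdt hab
  have hlow : ∀ k : ℤ × ℤ, c * (|(k.1 : ℝ)| + |(k.2 : ℝ)|) - ‖x‖ ≤ ‖x + lv a b k‖ := by
    intro k
    have h1 := lv_lower a b k
    have h2 : c * (|(k.1 : ℝ)| + |(k.2 : ℝ)|) ≤ ‖lv a b k‖ := by
      rw [hc, div_mul_eq_mul_div, div_le_iff₀ hab]
      exact h1
    have h3 : ‖lv a b k‖ ≤ ‖x + lv a b k‖ + ‖x‖ := by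
      calc ‖lv a b k‖ = ‖(x + lv a b k) - x‖ := by rw [add_sub_cancel_left]
        _ ≤ _ := norm_sub_le _ _
    linarith
  have hmaj : Summable fun k : ℤ × ℤ =>
      Real.exp (w * ‖x‖) * Real.exp (-(w * c) * (|(k.1 : ℝ)| + |(k.2 : ℝ)|)) :=
    (summable_exp_abs_prod (mul_pos hw hcpos)).mul_left _
  refine Summable.of_norm_bounded_eventually hmaj ?_
  have hfin := finite_le ((1 + ‖x‖) / c)
  rw [Filter.eventually_cofinite]
  refine hfin.subset ?_
  intro k hk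
  simp only [mem_setOf_eq] at hk ⊢
  by_contra hcon
  apply hk
  rw [not_le, div_lt_iff₀ hcpos] at hcon
  have h1 := hlow k
  have h2 : 1 ≤ ‖x + lv a b k‖ := by linarith
  have h3 : K s ‖x + lv a b k‖ ≤ 1 := by
    unfold K
    exact Real.rpow_le_one_of_one_le_of_nonpos h2 (by linarith)
  rw [Real.norm_of_nonneg (ph_nonneg (norm_nonneg _)), ph, ← Real.exp_add]
  calc K s ‖x + lv a b k‖ * Real.exp (-w * ‖x + lv a b k‖)
      ≤ 1 * Real.exp (-w * ‖x + lv a b k‖) :=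
        mul_le_mul_of_nonneg_right h3 (Real.exp_pos _).le
    _ ≤ _ := by
        rw [one_mul]
        apply Real.exp_le_exp.2
        nlinarith

theorem measurable_phn (s w : ℝ) : Measurable fun z : ℂ => ENNReal.ofReal (ph s w ‖z‖) :=
  ((measurable_ph s w).comp measurable_norm).ennreal_ofReal

theorem RS_hasSum {s w : ℝ} (h0 : 0 < s) (h2 : s < 2) (hw : 0 < w) {a b : ℂ} (h : dt a b ≠ 0)
    (x : ℂ) : HasSum (fun k : ℤ × ℤ => ph s w ‖x + lv a b k‖ -
      ∫ u in Sq, ph s w ‖x + lv a b k + (u.1 * a + u.2 * b)‖) (RS s w a b x) := by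
  have h1 := (summable_ph h0 hw h x).hasSum
  have hT := tiling h x (measurable_phn s w)
  have hI : ∫⁻ z : ℂ, ENNReal.ofReal (ph s w ‖z‖) = ENNReal.ofReal (bk s w) := by
    rw [← integral_ph h2 hw, ofReal_integral_eq_lintegral_ofReal (integrable_ph h2 hw)
      (ae_of_all _ fun z => ph_nonneg (norm_nonneg _))]
  rw [hI] at hT
  have hcell : ∀ k : ℤ × ℤ, ∫ u in Sq, ph s w ‖x + lv a b k + (u.1 * a + u.2 * b)‖ =
      (∫⁻ u in Sq, ENNReal.ofReal (ph s w ‖x + lv a b k + (u.1 * a + u.2 * b)‖)).toReal := by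
    intro k
    rw [integral_eq_lintegral_of_nonneg_ae (ae_of_all _ fun u => ph_nonneg (norm_nonneg _))]
    refine Measurable.aestronglyMeasurable ?_
    refine (measurable_ph s w).comp (Measurable.norm ?_)
    fun_prop
  have hne : ∑' k : ℤ × ℤ, ∫⁻ u in Sq,
      ENNReal.ofReal (ph s w ‖x + lv a b k + (u.1 * a + u.2 * b)‖) ≠ ∞ := by
    rw [hT]
    exact ENNReal.mul_ne_top ENNReal.ofReal_ne_top ENNReal.ofReal_ne_top
  have hS := ENNReal.hasSum_toReal hne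
  have hbk : 0 ≤ bk s w := by
    rw [← integral_ph h2 hw]
    exact integral_nonneg fun z => ph_nonneg (norm_nonneg _)
  have hval : ∑' k : ℤ × ℤ, (∫⁻ u in Sq,
      ENNReal.ofReal (ph s w ‖x + lv a b k + (u.1 * a + u.2 * b)‖)).toReal =
      bk s w / |dt a b| := by
    rw [← ENNReal.tsum_toReal_eq (fun k => ENNReal.ne_top_of_tsum_ne_top hne k), hT,
      ENNReal.toReal_mul, ENNReal.toReal_ofReal (by positivity), ENNReal.toReal_ofReal hbk]
    rw [div_eq_inv_mul]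
  rw [hval] at hS
  have h3 := h1.sub hS
  have h4 : (fun k : ℤ × ℤ => ph s w ‖x + lv a b k‖ -
      ∫ u in Sq, ph s w ‖x + lv a b k + (u.1 * a + u.2 * b)‖) = fun k : ℤ × ℤ =>
      ph s w ‖x + lv a b k‖ - (∫⁻ u in Sq,
        ENNReal.ofReal (ph s w ‖x + lv a b k + (u.1 * a + u.2 * b)‖)).toReal := by
    funext k
    rw [hcell k]
  rw [h4]
  exact h3

end Pool.Agent.Helper39.RZ2
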